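import Pool.Agent.Helper93.IA.St0

/-!
# Project IA, part N (nibble): definitions and easy facts

The facts about `Ex` proved here (`Ex_one`, `Ex_mono`, `Ex_add`, `Ex_sub`, `Ex_mul`, `Ex_neg`, `Ex_sum`,
`Ex_nonneg`, `Ex_const`) may be used in every module.
-/

set_option autoImplicit false

namespace Pool.Agent.Helper85.IA

open Finset Pool.Agent.Helper93.IA

section Gen

variable {ι : Type} [Fintype ι] [DecidableEq ι] {κ : ι → Type} [∀ i, Fintype (κ i)]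
  {w : ∀ i, κ i → ℝ}

theorem Ex_one (hs : ∀ i, ∑ v, w i v = 1) : Ex w (fun _ => 1) = 1 := by
  unfold Ex
  have h := Finset.prod_univ_sum (fun i : ι => (univ : Finset (κ i))) w
  rw [Fintype.piFinset_univ] at h
  simp only [mul_one]
  rw [← h]
  exact Finset.prod_eq_one fun i _ => hs i

theorem Ex_mono (h0 : ∀ i v, 0 ≤ w i v) {f g : (∀ i, κ i) → ℝ} (h : ∀ σ, f σ ≤ g σ) :
    Ex w f ≤ Ex w g := by
  unfold Ex
  exact Finset.sum_le_sum fun σ _ =>
    mul_le_mul_of_nonneg_left (h σ) (Finset.prod_nonneg fun i _ => h0 i _)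

theorem Ex_nonneg (h0 : ∀ i v, 0 ≤ w i v) {f : (∀ i, κ i) → ℝ} (h : ∀ σ, 0 ≤ f σ) :
    0 ≤ Ex w f :=
  Finset.sum_nonneg fun σ _ => mul_nonneg (Finset.prod_nonneg fun i _ => h0 i _) (h σ)

theorem Ex_add (f g : (∀ i, κ i) → ℝ) : Ex w (fun σ => f σ + g σ) = Ex w f + Ex w g := by
  unfold Ex
  simp only [mul_add, Finset.sum_add_distrib]

theorem Ex_sub (f g : (∀ i, κ i) → ℝ) : Ex w (fun σ => f σ - g σ) = Ex w f - Ex w g := by
  unfold Ex
  simp only [mul_sub, Finset.sum_sub_distrib]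

theorem Ex_neg (f : (∀ i, κ i) → ℝ) : Ex w (fun σ => - f σ) = - Ex w f := by
  unfold Ex
  simp only [mul_neg, Finset.sum_neg_distrib]

theorem Ex_mul (c : ℝ) (f : (∀ i, κ i) → ℝ) : Ex w (fun σ => c * f σ) = c * Ex w f := by
  unfold Ex
  rw [Finset.mul_sum]
  exact Finset.sum_congr rfl fun σ _ => by ring

theorem Ex_const (hs : ∀ i, ∑ v, w i v = 1) (c : ℝ) : Ex w (fun _ => c) = c := by
  have h := Ex_mul (w := w) c (fun _ => 1)
  rw [Ex_one hs, mul_one] at h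
  simpa using h

theorem Ex_sum {J : Type} (s : Finset J) (f : J → (∀ i, κ i) → ℝ) :
    Ex w (fun σ => ∑ j ∈ s, f j σ) = ∑ j ∈ s, Ex w (f j) := by
  unfold Ex
  simp only [Finset.mul_sum]
  exact Finset.sum_comm

end Gen

section Defs

variable {α β γ : Type} [Fintype α] [Fintype β] [Fintype γ] [DecidableEq α] [DecidableEq β]
  [DecidableEq γ]

/-- The triple `(a, b, c)` is used: the pair `(a, b)` has chosen `c`, and no other pair with the same first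
or the same second entry has chosen `c`. -/
def Us (σ : α × β → Option γ) (a : α) (b : β) (c : γ) : Prop :=
  σ (a, b) = some c ∧ (∀ b', b' ≠ b → σ (a, b') ≠ some c) ∧ ∀ a', a' ≠ a → σ (a', b) ≠ some c

instance (σ : α × β → Option γ) (a : α) (b : β) (c : γ) : Decidable (Us σ a b c) := by
  unfold Us; infer_instance

/-- Indicator of `Us`. -/
def us (σ : α × β → Option γ) (a : α) (b : β) (c : γ) : ℝ := if Us σ a b c then 1 else 0

/-- Cover indicators of the three kinds of edges. -/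
def kA (σ : α × β → Option γ) (a : α) (b : β) : ℝ := ∑ c, us σ a b c

def kB (σ : α × β → Option γ) (b : β) (c : γ) : ℝ := ∑ a, us σ a b c

def kC (σ : α × β → Option γ) (c : γ) (a : α) : ℝ := ∑ b, us σ a b c

/-- The statistics of an edge `(a, b)` (`s = t = 1`; for `s = 0` or `t = 0` degrees). -/
def F1 (σ : α × β → Option γ) (z : γ → ℝ) (s t : ℝ) (a : α) (b : β) : ℝ :=
  ∑ c, z c * ((1 - s * kB σ b c) * (1 - t * kC σ c a))

def F2 (σ : α × β → Option γ) (z : β → ℝ) (s t : ℝ) (c : γ) (a : α) : ℝ :=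
  ∑ b, z b * ((1 - s * kA σ a b) * (1 - t * kB σ b c))

def F3 (σ : α × β → Option γ) (z : α → ℝ) (s t : ℝ) (b : β) (c : γ) : ℝ :=
  ∑ a, z a * ((1 - s * kA σ a b) * (1 - t * kC σ c a))

/-- The distribution of the choice of the pair `p`. -/
def wt (y : α → β → γ → ℝ) (p : α × β) (v : Option γ) : ℝ :=
  v.elim (1 - ∑ c, y p.1 p.2 c) fun c => y p.1 p.2 c

/-- Expectation. -/
def E (y : α → β → γ → ℝ) (f : (α × β → Option γ) → ℝ) : ℝ :=
  Ex (ι := α × β) (κ := fun _ => Option γ) (wt y) f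

/-- Admissible probabilities. -/
structure Yd (ε μ : ℝ) (y : α → β → γ → ℝ) : Prop where
  e1 : ε ≤ 1
  nn : ∀ a b c, 0 ≤ y a b c
  le : ∀ a b c, y a b c ≤ μ
  sA : ∀ a b, ∑ c, y a b c ≤ ε
  sB : ∀ b c, ∑ a, y a b c ≤ ε
  sC : ∀ c a, ∑ b, y a b c ≤ ε

theorem wt_nonneg {ε μ : ℝ} {y : α → β → γ → ℝ} (h : Yd ε μ y) (p : α × β) (v : Option γ) :
    0 ≤ wt y p v := by
  cases v with
  | none => simp only [wt, Option.elim_none]; linarith [h.sA p.1 p.2, h.e1]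
  | some c => exact h.nn p.1 p.2 c

theorem wt_sum (y : α → β → γ → ℝ) (p : α × β) : ∑ v, wt y p v = 1 := by
  rw [Fintype.sum_option]
  simp [wt]

/-- `f` depends weakly on each coordinate: changing a coordinate from `none` to another value changes
`f` by at most `2`; and if the coordinate is not in `S`, at most two values change `f` at all. -/
def Loc (f : (α × β → Option γ) → ℝ) (S : Finset (α × β)) : Prop :=
  (∀ σ p v, |f (Function.update σ p v) - f (Function.update σ p none)| ≤ 2) ∧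
    ∀ σ p, p ∉ S → ∃ r r' : Option γ, ∀ v, v ≠ r → v ≠ r' →
      f (Function.update σ p v) = f (Function.update σ p none)

/-- The test `f < b` is passed with high probability. -/
def Tst (y : α → β → γ → ℝ) (t : ℝ) (n : ℕ) (f : (α × β → Option γ) → ℝ) (b : ℝ) : Prop :=
  ∃ S : Finset (α × β), Loc f S ∧ S.card ≤ 2 * n ∧ E y f + t ≤ b

/-- The data of the nibble: a graph `(A, B, C)` with an almost perfect fractional triangle decomposition `x`
and maximal degree at most `d * n`. -/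
structure Dat (Λ δ d : ℝ) (n : ℕ) (A : Finset (α × β)) (B : Finset (β × γ)) (C : Finset (γ × α))
    (x : α → β → γ → ℝ) : Prop where
  nα : Fintype.card α = n
  nβ : Fintype.card β = n
  nγ : Fintype.card γ = n
  x0 : ∀ a b c, 0 ≤ x a b c
  xl : ∀ a b c, x a b c ≤ Λ / n
  sup : ∀ a b c, x a b c ≠ 0 → (a, b) ∈ A ∧ (b, c) ∈ B ∧ (c, a) ∈ C
  lA : ∀ a b, (a, b) ∈ A → 1 - δ ≤ ∑ c, x a b c
  uA : ∀ a b, ∑ c, x a b c ≤ 1
  lB : ∀ b c, (b, c) ∈ B → 1 - δ ≤ ∑ a, x a b c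
  uB : ∀ b c, ∑ a, x a b c ≤ 1
  lC : ∀ c a, (c, a) ∈ C → 1 - δ ≤ ∑ b, x a b c
  uC : ∀ c a, ∑ b, x a b c ≤ 1
  dA : Sm A (d * n)
  dB : Sm B (d * n)
  dC : Sm C (d * n)

/-- The properties of a good outcome `σ` of one round. -/
structure Rd (Λ ε δ η : ℝ) (n : ℕ) (A : Finset (α × β)) (B : Finset (β × γ))
    (C : Finset (γ × α)) (x : α → β → γ → ℝ) (σ : α × β → Option γ) : Prop where
  pos : ∀ a b c, σ (a, b) = some c → x a b c ≠ 0
  loA : ∀ a b, (1 - 2 * ε) * ∑ c, x a b c - η ≤ F1 σ (fun c => x a b c) 1 1 a b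
  upA : ∀ a b, F1 σ (fun c => x a b c) 1 1 a b ≤
    (1 - 2 * ((1 - 2 * ε) * ((1 - δ) * ε)) + ε ^ 2 + ε * Λ / n) * ∑ c, x a b c + η
  loB : ∀ b c, (1 - 2 * ε) * ∑ a, x a b c - η ≤ F3 σ (fun a => x a b c) 1 1 b c
  upB : ∀ b c, F3 σ (fun a => x a b c) 1 1 b c ≤
    (1 - 2 * ((1 - 2 * ε) * ((1 - δ) * ε)) + ε ^ 2 + ε * Λ / n) * ∑ a, x a b c + η
  loC : ∀ c a, (1 - 2 * ε) * ∑ b, x a b c - η ≤ F2 σ (fun b => x a b c) 1 1 c a
  upC : ∀ c a, F2 σ (fun b => x a b c) 1 1 c a ≤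
    (1 - 2 * ((1 - 2 * ε) * ((1 - δ) * ε)) + ε ^ 2 + ε * Λ / n) * ∑ b, x a b c + η
  dA1 : ∀ a, ∑ b, (if (a, b) ∈ A then 1 - kA σ a b else 0) ≤ (1 - ε / 2) * d1 A a + η * n
  dA2 : ∀ b, ∑ a, (if (a, b) ∈ A then 1 - kA σ a b else 0) ≤ (1 - ε / 2) * d2 A b + η * n
  dB1 : ∀ b, ∑ c, (if (b, c) ∈ B then 1 - kB σ b c else 0) ≤ (1 - ε / 2) * d1 B b + η * n
  dB2 : ∀ c, ∑ b, (if (b, c) ∈ B then 1 - kB σ b c else 0) ≤ (1 - ε / 2) * d2 B c + η * n
  dC1 : ∀ c, ∑ a, (if (c, a) ∈ C then 1 - kC σ c a else 0) ≤ (1 - ε / 2) * d1 C c + η * n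
  dC2 : ∀ a, ∑ c, (if (c, a) ∈ C then 1 - kC σ c a else 0) ≤ (1 - ε / 2) * d2 C a + η * n

/-- The triangles used in the outcome `σ`. -/
def P1 (σ : α × β → Option γ) : Finset (α × β × γ) := univ.filter fun T => Us σ T.1 T.2.1 T.2.2

/-- The new weights. -/
noncomputable def nx (σ : α × β → Option γ) (N : ℝ) (x : α → β → γ → ℝ) (a : α) (b : β) (c : γ) :
    ℝ :=
  x a b c * ((1 - kA σ a b) * (1 - kB σ b c) * (1 - kC σ c a)) / N

end Defs

/-- The conclusion of the nibble for the parameters `Λ, δ, d, g`. -/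
def Good (Λ δ d g : ℝ) : Prop :=
  ∃ n0 : ℕ, ∀ (α β γ : Type) [Fintype α] [Fintype β] [Fintype γ] [DecidableEq α] [DecidableEq β]
    [DecidableEq γ] (n : ℕ), n0 ≤ n → ∀ (A : Finset (α × β)) (B : Finset (β × γ))
    (C : Finset (γ × α)) (x : α → β → γ → ℝ), Dat Λ δ d n A B C x →
    ∃ P, Pack A B C P ∧ Sm (A \ P.image eA) (g * n) ∧ Sm (B \ P.image eB) (g * n) ∧
      Sm (C \ P.image eC) (g * n)

end Pool.Agent.Helper85.IA
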