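import Pool.Agent.Helper57.IA.Brn
import Pool.Agent.Helper80.IA85.EXJ
import Pool.Agent.Helper6.IA85.UNI
import Pool.Agent.Helper72.IA85.KUB
import Pool.Agent.Helper7.IA85.KMN
import Pool.Agent.Helper30.IA85.KK1
import Pool.Agent.Helper95.IA85.KK2
import Pool.Agent.Helper64.IA85.KK3
import Pool.Agent.Helper33.IA85.MNF
import Pool.Agent.Helper85.IA85.LO1
import Pool.Agent.Helper19.IA85.LO2
import Pool.Agent.Helper2.IA85.LO3
import Pool.Agent.Helper28.IA85.M_CON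
import Pool.Agent.Helper18.IA85.SEL
import Pool.Agent.Helper42.IA85.TSA
import Pool.Agent.Helper9.IA85.TSB
import Pool.Agent.Helper37.IA85.TSC
import Pool.Agent.Helper14.IA85.TDA
import Pool.Agent.Helper47.IA85.TDB
import Pool.Agent.Helper80.IA85.TDC
import Pool.Agent.Helper87.IA85.RS1
import Pool.Agent.Helper10.IA85.RIM
import Pool.Agent.Helper54.IA85.RPK
import Pool.Agent.Helper12.IA85.RSM
import Pool.Agent.Helper81.IA85.RDG
import Pool.Agent.Helper62.IA85.RUN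
import Pool.Agent.Helper81.IA85.RND
import Pool.Agent.Helper54.IA85.ITE
import Pool.Agent.Helper33.IA85.NIF

/-!
# Project IA, part N: the nibble
-/

set_option autoImplicit false

namespace Pool.Agent.Helper85.IA

open Pool.Agent.Helper93.IA

theorem kmn : StKMN := Pool.Agent.Helper7.IA85.hKMN Pool.Agent.Helper80.IA85.hEXJ

theorem kub : StKUB := Pool.Agent.Helper72.IA85.hKUB

theorem mnf : StMNF :=
  Pool.Agent.Helper33.IA85.hMNF kmn (Pool.Agent.Helper30.IA85.hKK1 Pool.Agent.Helper80.IA85.hEXJ)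
    (Pool.Agent.Helper95.IA85.hKK2 Pool.Agent.Helper80.IA85.hEXJ)
    (Pool.Agent.Helper64.IA85.hKK3 Pool.Agent.Helper80.IA85.hEXJ)

theorem lo1 : StLO1 := Pool.Agent.Helper85.IA85.hLO1 kub

theorem lo2 : StLO2 := Pool.Agent.Helper19.IA85.hLO2 kub

theorem lo3 : StLO3 := Pool.Agent.Helper2.IA85.hLO3 lo2

theorem sel : StSEL :=
  Pool.Agent.Helper18.IA85.hSEL Pool.Agent.Helper6.IA85.hUNI
    (Pool.Agent.Helper28.IA85.hCON Pool.Agent.Helper57.IA.hBRN)

theorem rs1 : StRS1 :=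
  Pool.Agent.Helper87.IA85.hRS1 sel (Pool.Agent.Helper42.IA85.hTSA kub lo1 mnf)
    (Pool.Agent.Helper9.IA85.hTSC kub lo3 mnf) (Pool.Agent.Helper37.IA85.hTSC kub lo2 mnf)
    (Pool.Agent.Helper14.IA85.hTDA kub lo2 lo3 kmn) (Pool.Agent.Helper47.IA85.hTDB kub lo1 lo2 kmn)
    (Pool.Agent.Helper80.IA85.hTDC kub lo3 lo1 kmn)

theorem rim : StRIM := Pool.Agent.Helper10.IA85.hRIM kub

theorem rnd : StRND :=
  Pool.Agent.Helper81.IA85.hRND rs1 Pool.Agent.Helper54.IA85.hRPK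
    (Pool.Agent.Helper12.IA85.hRSM rim) (Pool.Agent.Helper81.IA85.hRDG rim)
    Pool.Agent.Helper62.IA85.hRUN

/-- The nibble. -/
theorem hNIB : StNIB := Pool.Agent.Helper33.IA85.hNIF (Pool.Agent.Helper54.IA85.hITE rnd)

end Pool.Agent.Helper85.IA
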