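import Pool.Agent.Helper85.IA.Basic

/-!
# Project IA, part N (nibble): statements of the modules

Each statement is a closed Prop without hypotheses; the module theorem may (and should) take the statements listed
after USES as hypotheses, e.g. `theorem hMNF (h1 : StKMN) (h2 : StKK1) (h3 : StKK2) (h4 : StKK3) : StMNF`.

ONE ROUND with a small bite `ε`. The pair `(a, b)` chooses `some c` with probability `y a b c = ε x a b c`
(independently), `(a, b, c)` is used (`Us`) if nobody in the same row or column has chosen the same `c`.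
Everything is estimated with errors `O(ε^2)` (union bounds), so no exact formula is needed. The concentration
comes from `StBRN` through the notion `Loc` (see `StCON`). All the definitions and the rules for `Ex`
(`Ex_one`, `Ex_mono`, `Ex_add`, `Ex_sub`, `Ex_neg`, `Ex_mul`, `Ex_const`, `Ex_sum`, `Ex_nonneg`) and for
`wt` (`wt_nonneg`, `wt_sum`) are in `Pool.Agent.Helper85.IA.Basic`; `E y f` unfolds to `Ex (wt y) f`.
-/

set_option autoImplicit false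

namespace Pool.Agent.Helper85.IA

open Finset Pool.Agent.Helper93.IA

/-! ## Product measure -/

/-- EXJ (distribution of one and of two coordinates). USES: nothing. For a family `φ i : κ i → ℝ`:
`Ex w (fun σ => ∏ i, φ i (σ i)) = ∏ i, ∑ v, w i v * φ i v` (`Finset.prod_univ_sum`, `Fintype.piFinset_univ`,
`Finset.prod_mul_distrib`). Take `φ i = ` indicator of `v` (and `φ j = ` indicator of `v'`), all the other `φ` equal
to `1`. -/
def StEXJ : Prop :=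
  ∀ (ι : Type) [Fintype ι] [DecidableEq ι] (κ : ι → Type) [∀ i, Fintype (κ i)]
    [∀ i, DecidableEq (κ i)] (w : ∀ i, κ i → ℝ), (∀ i, ∑ v, w i v = 1) →
    (∀ i v, Ex w (fun σ => if σ i = v then 1 else 0) = w i v) ∧
      ∀ i j v v', i ≠ j → Ex w (fun σ => if σ i = v ∧ σ j = v' then 1 else 0) = w i v * w j v'

/-- UNI (union bound). USES: nothing. Otherwise for every `σ` with `∏ w i (σ i) ≠ 0` some `Q j σ` holds, so
`1 ≤ ∑ j, (if Q j σ then 1 else 0)` for these, and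
`1 = ∑ σ, ∏ w * 1 ≤ ∑ σ, ∏ w * ∑ j .. = ∑ j, Ex w .. < 1`. -/
def StUNI : Prop :=
  ∀ (ι : Type) [Fintype ι] [DecidableEq ι] (κ : ι → Type) [∀ i, Fintype (κ i)]
    (w : ∀ i, κ i → ℝ) (J : Type) [Fintype J] (Q : J → (∀ i, κ i) → Prop)
    [∀ j σ, Decidable (Q j σ)], (∀ i v, 0 ≤ w i v) → (∀ i, ∑ v, w i v = 1) →
    ∑ j, Ex w (fun σ => if Q j σ then 1 else 0) < 1 →
    ∃ σ : (∀ i, κ i), (∀ i, w i (σ i) ≠ 0) ∧ ∀ j, ¬ Q j σ

/-! ## The cover indicators -/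

/-- KUB. USES: nothing. At most one `c` has `Us σ a b c` (`σ (a, b)` has one value); at most one `a` has
`Us σ a b c` (third clause of `Us`), at most one `b` (second clause). So each sum of indicators is `0` or
`1`. -/
def StKUB : Prop :=
  ∀ (α β γ : Type) [Fintype α] [Fintype β] [Fintype γ] [DecidableEq α] [DecidableEq β]
    [DecidableEq γ] (σ : α × β → Option γ),
    (∀ a b, kA σ a b = if ∃ c, Us σ a b c then 1 else 0) ∧
    (∀ b c, kB σ b c = if ∃ a, Us σ a b c then 1 else 0) ∧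
    ∀ c a, kC σ c a = if ∃ b, Us σ a b c then 1 else 0

/-- KMN (means of the cover indicators). USES: StEXJ. `us σ a b c ≤ 1[σ (a,b) = some c]`, so
`E us ≤ y a b c` (EXJ). `us σ a b c ≥ 1[σ (a,b) = some c] - ∑_{b' ≠ b} 1[σ (a,b) = some c ∧ σ (a,b') = some c] -
∑_{a' ≠ a} 1[σ (a,b) = some c ∧ σ (a',b) = some c]`, so `E us ≥ y a b c (1 - ∑_{b'} y a b' c - ∑_{a'} y a' b c)
≥ y a b c (1 - 2 ε)`. Sum over `c`, `a`, `b` (`Ex_sum`). -/
def StKMN : Prop :=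
  ∀ (α β γ : Type) [Fintype α] [Fintype β] [Fintype γ] [DecidableEq α] [DecidableEq β]
    [DecidableEq γ] (ε μ : ℝ) (y : α → β → γ → ℝ), Yd ε μ y →
    (∀ a b, E y (fun σ => kA σ a b) ≤ ∑ c, y a b c ∧
      (1 - 2 * ε) * ∑ c, y a b c ≤ E y (fun σ => kA σ a b)) ∧
    (∀ b c, E y (fun σ => kB σ b c) ≤ ∑ a, y a b c ∧
      (1 - 2 * ε) * ∑ a, y a b c ≤ E y (fun σ => kB σ b c)) ∧
    ∀ c a, E y (fun σ => kC σ c a) ≤ ∑ b, y a b c ∧
      (1 - 2 * ε) * ∑ b, y a b c ≤ E y (fun σ => kC σ c a)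

/-- KK1. USES: StEXJ. `kB σ b c * kC σ c a = ∑_{a', b'} us σ a' b c * us σ a b' c`. For `a' = a`, `b' = b`: at
most `1[σ (a,b) = some c]`. For exactly one of `a' = a`, `b' = b`: the product is `0` (second or third clause
of `Us`). For `a' ≠ a`, `b' ≠ b`: at most `1[σ (a',b) = some c ∧ σ (a,b') = some c]`, mean
`y a' b c * y a b' c` (EXJ, the coordinates `(a',b)`, `(a,b')` are different). Total
`≤ y a b c + (∑_{a'} y a' b c) (∑_{b'} y a b' c) ≤ y a b c + ε^2`. -/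
def StKK1 : Prop :=
  ∀ (α β γ : Type) [Fintype α] [Fintype β] [Fintype γ] [DecidableEq α] [DecidableEq β]
    [DecidableEq γ] (ε μ : ℝ) (y : α → β → γ → ℝ), 0 ≤ ε → Yd ε μ y →
    ∀ a b c, E y (fun σ => kB σ b c * kC σ c a) ≤ ε ^ 2 + y a b c

/-- KK2. USES: StEXJ. `kA σ a b * kB σ b c = ∑_{c', a'} us σ a b c' * us σ a' b c`. For `c' = c`, `a' = a`: at most
`1[σ (a,b) = some c]`. If `c' = c`, `a' ≠ a`: `0` (third clause of `Us`). If `c' ≠ c`, `a' = a`: `0` (`σ (a,b)` has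
one value). Otherwise at most `1[σ (a,b) = some c' ∧ σ (a',b) = some c]`, mean `y a b c' * y a' b c`. Total
`≤ y a b c + ε^2`. -/
def StKK2 : Prop :=
  ∀ (α β γ : Type) [Fintype α] [Fintype β] [Fintype γ] [DecidableEq α] [DecidableEq β]
    [DecidableEq γ] (ε μ : ℝ) (y : α → β → γ → ℝ), 0 ≤ ε → Yd ε μ y →
    ∀ a b c, E y (fun σ => kA σ a b * kB σ b c) ≤ ε ^ 2 + y a b c

/-- KK3. USES: StEXJ. As KK2 with the roles of `α` and `β` exchanged: `kA σ a b * kC σ c a =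
∑_{c', b'} us σ a b c' * us σ a b' c`. -/
def StKK3 : Prop :=
  ∀ (α β γ : Type) [Fintype α] [Fintype β] [Fintype γ] [DecidableEq α] [DecidableEq β]
    [DecidableEq γ] (ε μ : ℝ) (y : α → β → γ → ℝ), 0 ≤ ε → Yd ε μ y →
    ∀ a b c, E y (fun σ => kA σ a b * kC σ c a) ≤ ε ^ 2 + y a b c

/-- MNF (means of `F1`, `F2`, `F3`). USES: StKMN, StKK1, StKK2, StKK3. `(1 - k)(1 - k') = 1 - k - k' + k k'`;
`E k, E k' ≤ ε` and `E (k k') ≥ 0` (`us ≥ 0`) give the lower bound; `E k, E k' ≥ (1 - 2ε) l` and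
`E (k k') ≤ ε^2 + y a b c ≤ ε^2 + μ` give the upper bound; multiply by `z ≥ 0` and sum (terms with `z = 0` are
`0`); `Ex_sum`, `Ex_mul`, `Ex_one`. -/
def StMNF : Prop :=
  ∀ (α β γ : Type) [Fintype α] [Fintype β] [Fintype γ] [DecidableEq α] [DecidableEq β]
    [DecidableEq γ] (ε μ l : ℝ) (y : α → β → γ → ℝ), 0 ≤ ε → ε ≤ 1 / 8 → 0 ≤ l → Yd ε μ y →
    (∀ a b (z : γ → ℝ), (∀ c, 0 ≤ z c) →
      (∀ c, z c ≠ 0 → l ≤ ∑ a', y a' b c ∧ l ≤ ∑ b', y a b' c) →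
      (1 - 2 * ε) * ∑ c, z c ≤ E y (fun σ => F1 σ z 1 1 a b) ∧
      E y (fun σ => F1 σ z 1 1 a b) ≤
        (1 - 2 * ((1 - 2 * ε) * l) + ε ^ 2 + μ) * ∑ c, z c) ∧
    (∀ c a (z : β → ℝ), (∀ b, 0 ≤ z b) →
      (∀ b, z b ≠ 0 → l ≤ ∑ c', y a b c' ∧ l ≤ ∑ a', y a' b c) →
      (1 - 2 * ε) * ∑ b, z b ≤ E y (fun σ => F2 σ z 1 1 c a) ∧
      E y (fun σ => F2 σ z 1 1 c a) ≤
        (1 - 2 * ((1 - 2 * ε) * l) + ε ^ 2 + μ) * ∑ b, z b) ∧
    ∀ b c (z : α → ℝ), (∀ a, 0 ≤ z a) →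
      (∀ a, z a ≠ 0 → l ≤ ∑ c', y a b c' ∧ l ≤ ∑ b', y a b' c) →
      (1 - 2 * ε) * ∑ a, z a ≤ E y (fun σ => F3 σ z 1 1 b c) ∧
      E y (fun σ => F3 σ z 1 1 b c) ≤
        (1 - 2 * ((1 - 2 * ε) * l) + ε ^ 2 + μ) * ∑ a, z a

/-! ## Locality and concentration -/

/-- LO1 (`F1` depends weakly on each coordinate). USES: StKUB. Let `p = (a0,b0)`, `v = some c0` (for `v = none`
nothing to do), `σ' = update σ p (some c0)`, `σ'' = update σ p none`. For `c ≠ c0` and every `q`: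
`σ' q = some c ↔ σ'' q = some c`, so `Us σ' a b c ↔ Us σ'' a b c`, and the terms `c ≠ c0` of `F1` are the same.
The term `c0` lies between `0` and `z c0` (or `z c0` and `0`) for both, because `k ∈ {0,1}` (KUB) and
`s, t ∈ [0,1]`: difference at most `1`. If `a0 ≠ a`, `b0 ≠ b` (i.e. `p ∉ S`) take `r = σ (a,b0)`,
`r' = σ (a0,b)`. Suppose `some c0 ≠ r, r'`. Then `Us σ' a' b c0 ↔ Us σ'' a' b c0` for all `a'`: the only coordinate
which changed is `(a0,b0)`, it occurs in the condition only if `a' = a0` (second clause), and then both are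
false as `σ (a0,b) ≠ some c0` (first clause; `(a0,b) ≠ p`). In the same way `Us σ' a b' c0 ↔ Us σ'' a b' c0` for
all `b'` (only `b' = b0` matters, and `σ (a,b0) ≠ some c0`). So `kB .. b c0`, `kC .. c0 a` are the same. -/
def StLO1 : Prop :=
  ∀ (α β γ : Type) [Fintype α] [Fintype β] [Fintype γ] [DecidableEq α] [DecidableEq β]
    [DecidableEq γ] (z : γ → ℝ) (s t : ℝ) (a : α) (b : β), (∀ c, |z c| ≤ 1) → 0 ≤ s → s ≤ 1 →
    0 ≤ t → t ≤ 1 →
    Loc (fun σ : α × β → Option γ => F1 σ z s t a b) (univ.filter fun p => p.1 = a ∨ p.2 = b)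

/-- LO2 (`F2` depends weakly on each coordinate). USES: StKUB. Notation of LO1. As there only triples
`(a',b',c0)` with `a' = a0` or `b' = b0` can change their status `Us`. (i) If `b' ≠ b0` and `Us (a',b',c0)`
changes, then `a' = a0` and `Us σ'' a0 b' c0` holds (`Us σ' a0 b' c0` is false, since
`σ' (a0,b0) = some c0`); there is at most one such `b'`, call it `b1`. So the terms `b ∉ {b0, b1}` of `F2` are
the same for `σ'` and `σ''`; each other term changes by at most `1` (it lies between `0` and `z b` for both,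
KUB): total at most `2`. (ii) Suppose `a0 ≠ a`, take `r = σ (a,b0)`, `r' = some c`, and suppose
`some c0 ≠ r, r'`. Then `c0 ≠ c`, so `kB .. b c` does not change for any `b`. `kA .. a b` does not change:
`Us .. a b c0` can change only if `b = b0` (as `a ≠ a0`), and then it is false for both as
`σ (a,b0) ≠ some c0`; `Us .. a b c'` with `c' ≠ c0` never changes. -/
def StLO2 : Prop :=
  ∀ (α β γ : Type) [Fintype α] [Fintype β] [Fintype γ] [DecidableEq α] [DecidableEq β]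
    [DecidableEq γ] (z : β → ℝ) (s t : ℝ) (c : γ) (a : α), (∀ b, |z b| ≤ 1) → 0 ≤ s → s ≤ 1 →
    0 ≤ t → t ≤ 1 →
    Loc (fun σ : α × β → Option γ => F2 σ z s t c a) (univ.filter fun p => p.1 = a)

/-- LO3 (from LO2 by exchanging `α` and `β`). USES: StLO2. For `σ : α × β → Option γ` put
`τ q = σ (q.2, q.1)`, `q ∈ β × α`. `Us τ b a c ↔ Us σ a b c`, so `kA τ b a = kA σ a b`, `kB τ a c = kC σ c a` and
`F2 τ z s t c b = F3 σ z s t b c`. `update σ p v` corresponds to `update τ (p.2, p.1) v`. Apply LO2 with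
`(β, α, γ)`. -/
def StLO3 : Prop :=
  ∀ (α β γ : Type) [Fintype α] [Fintype β] [Fintype γ] [DecidableEq α]
    [DecidableEq β] [DecidableEq γ] (z : α → ℝ) (s t : ℝ) (b : β) (c : γ), (∀ a, |z a| ≤ 1) →
    0 ≤ s → s ≤ 1 → 0 ≤ t → t ≤ 1 →
    Loc (fun σ : α × β → Option γ => F3 σ z s t b c) (univ.filter fun p => p.2 = b)

/-- CON (concentration). USES: StBRN (`Pool.Agent.Helper93.IA.StBRN`, as a hypothesis). BRN with `c := 4`
(triangle inequality through `none`), `m := f (update σ p none)`,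
`v p := 4` if `p ∈ S` (`∑_v w v * 2^2 = 4`) and `v p := 8 Λ / n` otherwise: the terms are zero unless
`v ∈ {r, r'}` and `v ≠ none`, and `wt y p (some c) = y .. ≤ Λ / n`, each term at most `4 Λ / n`.
`∑ v ≤ 4 * 2n + n^2 * 8 Λ / n = 8 n (1 + Λ)`. With `l = min (1/4) (η / (16 (1 + Λ)))`, `t = η n`:
`- l η n + l^2 8 n (1 + Λ) ≤ - l η n / 2`, so `c = l η / 2`. -/
def StCON : Prop :=
  ∀ Λ η : ℝ, 0 < Λ → 0 < η → ∃ c : ℝ, 0 < c ∧
    ∀ (α β γ : Type) [Fintype α] [Fintype β] [Fintype γ] [DecidableEq α] [DecidableEq β]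
    [DecidableEq γ] (n : ℕ) (ε : ℝ) (y : α → β → γ → ℝ) (f : (α × β → Option γ) → ℝ)
    (S : Finset (α × β)), 0 < n → Fintype.card α = n → Fintype.card β = n → Yd ε (Λ / n) y →
    Loc f S → S.card ≤ 2 * n →
    E y (fun σ => if E y f + η * n ≤ f σ then 1 else 0) ≤ Real.exp (-c * n)

/-- SEL (selection of a good outcome). USES: StUNI, StCON. The sum of the probabilities of the events
`E y (f j) + η n ≤ f j σ` is at most `20 n^2 exp (- c n) < 1` for large `n`. `wt y p (σ p) ≠ 0` with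
`σ (a,b) = some c` says `y a b c ≠ 0`. And `f j σ < E y (f j) + η n ≤ b j`. -/
def StSEL : Prop :=
  ∀ Λ η : ℝ, 0 < Λ → 0 < η → ∃ n1 : ℕ, 0 < n1 ∧
    ∀ (α β γ : Type) [Fintype α] [Fintype β] [Fintype γ] [DecidableEq α] [DecidableEq β]
    [DecidableEq γ] (n : ℕ) (ε : ℝ) (y : α → β → γ → ℝ), n1 ≤ n → Fintype.card α = n →
    Fintype.card β = n → Yd ε (Λ / n) y →
    ∀ (J : Type) [Fintype J] (f : J → (α × β → Option γ) → ℝ) (b : J → ℝ),
      Fintype.card J ≤ 20 * n ^ 2 → (∀ j, Tst y (η * n) n (f j) (b j)) →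
      ∃ σ : α × β → Option γ, (∀ a b c, σ (a, b) = some c → y a b c ≠ 0) ∧ ∀ j, f j σ < b j

/-! ## The tests: the statistics of one round (`y = ε x`, `l = (1 - δ) ε`, `μ = ε Λ / n`) -/

/-- TSA. USES: StKUB, StLO1, StMNF. `n/Λ * F1 σ x.. 1 1 .. = F1 σ z 1 1 ..` with `z = n/Λ * x.. ∈ [0,1]`
(as functions of `c`); `Loc` from StLO1 (for the second statement with `- z`, since `F1` is linear in `z`; there
`|S| ≤ 2 n`); the mean from MNF with `y = ε x`, `μ = ε Λ / n`, `l = (1 - δ) ε`: if `x a b c ≠ 0` then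
`(b,c) ∈ B` and `(c,a) ∈ C`, so the sums of `y` needed in MNF are at least `ε (1 - δ)`. `Yd ε (ε Λ / n) y` from
`Dat`. -/
def StTSA : Prop :=
  ∀ (α β γ : Type) [Fintype α] [Fintype β] [Fintype γ] [DecidableEq α] [DecidableEq β]
    [DecidableEq γ] (Λ ε δ d η : ℝ) (n : ℕ) (A : Finset (α × β)) (B : Finset (β × γ))
    (C : Finset (γ × α)) (x : α → β → γ → ℝ), 0 < Λ → 0 < ε → ε ≤ 1 / 8 → 0 ≤ δ → δ ≤ 1 / 4 →
    0 < η → 0 < n → Dat Λ δ d n A B C x → ∀ a b,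
    Tst (fun a b c => ε * x a b c) (η * n) n
      (fun σ => n / Λ * F1 σ (fun c => x a b c) 1 1 a b)
      (n / Λ * ((1 - 2 * ((1 - 2 * ε) * ((1 - δ) * ε)) + ε ^ 2 + ε * Λ / n) * ∑ c, x a b c
        + Λ * η)) ∧
    Tst (fun a b c => ε * x a b c) (η * n) n
      (fun σ => -(n / Λ) * F1 σ (fun c => x a b c) 1 1 a b)
      (-(n / Λ) * ((1 - 2 * ε) * ∑ c, x a b c - Λ * η))

/-- TSB. USES: StKUB, StLO3, StMNF. `n/Λ * F3 σ x.. 1 1 .. = F3 σ z 1 1 ..` with `z = n/Λ * x.. ∈ [0,1]`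
(as functions of `a`); `Loc` from StLO3 (for the second statement with `- z`, since `F3` is linear in `z`; there
`|S| ≤ 2 n`); the mean from MNF with `y = ε x`, `μ = ε Λ / n`, `l = (1 - δ) ε`: if `x a b c ≠ 0` then
`(a,b) ∈ A` and `(c,a) ∈ C`, so the sums of `y` needed in MNF are at least `ε (1 - δ)`. `Yd ε (ε Λ / n) y` from
`Dat`. -/
def StTSB : Prop :=
  ∀ (α β γ : Type) [Fintype α] [Fintype β] [Fintype γ] [DecidableEq α] [DecidableEq β]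
    [DecidableEq γ] (Λ ε δ d η : ℝ) (n : ℕ) (A : Finset (α × β)) (B : Finset (β × γ))
    (C : Finset (γ × α)) (x : α → β → γ → ℝ), 0 < Λ → 0 < ε → ε ≤ 1 / 8 → 0 ≤ δ → δ ≤ 1 / 4 →
    0 < η → 0 < n → Dat Λ δ d n A B C x → ∀ b c,
    Tst (fun a b c => ε * x a b c) (η * n) n
      (fun σ => n / Λ * F3 σ (fun a => x a b c) 1 1 b c)
      (n / Λ * ((1 - 2 * ((1 - 2 * ε) * ((1 - δ) * ε)) + ε ^ 2 + ε * Λ / n) * ∑ a, x a b c
        + Λ * η)) ∧
    Tst (fun a b c => ε * x a b c) (η * n) n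
      (fun σ => -(n / Λ) * F3 σ (fun a => x a b c) 1 1 b c)
      (-(n / Λ) * ((1 - 2 * ε) * ∑ a, x a b c - Λ * η))

/-- TSC. USES: StKUB, StLO2, StMNF. `n/Λ * F2 σ x.. 1 1 .. = F2 σ z 1 1 ..` with `z = n/Λ * x.. ∈ [0,1]`
(as functions of `b`); `Loc` from StLO2 (for the second statement with `- z`, since `F2` is linear in `z`; there
`|S| ≤ 2 n`); the mean from MNF with `y = ε x`, `μ = ε Λ / n`, `l = (1 - δ) ε`: if `x a b c ≠ 0` then
`(a,b) ∈ A` and `(b,c) ∈ B`, so the sums of `y` needed in MNF are at least `ε (1 - δ)`. `Yd ε (ε Λ / n) y` from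
`Dat`. -/
def StTSC : Prop :=
  ∀ (α β γ : Type) [Fintype α] [Fintype β] [Fintype γ] [DecidableEq α] [DecidableEq β]
    [DecidableEq γ] (Λ ε δ d η : ℝ) (n : ℕ) (A : Finset (α × β)) (B : Finset (β × γ))
    (C : Finset (γ × α)) (x : α → β → γ → ℝ), 0 < Λ → 0 < ε → ε ≤ 1 / 8 → 0 ≤ δ → δ ≤ 1 / 4 →
    0 < η → 0 < n → Dat Λ δ d n A B C x → ∀ c a,
    Tst (fun a b c => ε * x a b c) (η * n) n
      (fun σ => n / Λ * F2 σ (fun b => x a b c) 1 1 c a)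
      (n / Λ * ((1 - 2 * ((1 - 2 * ε) * ((1 - δ) * ε)) + ε ^ 2 + ε * Λ / n) * ∑ b, x a b c
        + Λ * η)) ∧
    Tst (fun a b c => ε * x a b c) (η * n) n
      (fun σ => -(n / Λ) * F2 σ (fun b => x a b c) 1 1 c a)
      (-(n / Λ) * ((1 - 2 * ε) * ∑ b, x a b c - Λ * η))

/-- TDA. USES: StKUB, StLO2, StLO3, StKMN. The first function is `F2 σ z 1 0 c a`, the second `F3 σ z 1 0 b c` (the dummy index exists
because `0 < n`), `z` the indicator of `A`; StLO2 and StLO3 give `Loc` (`|S| ≤ 2 n`). Means: KMN with `y = ε x`: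
`E (1 - kA) ≤ 1 - (1 - 2ε)(1 - δ) ε ≤ 1 - ε/2` for an edge of `A` (`(1 - 2ε)(1 - δ) ≥ 9/16`). -/
def StTDA : Prop :=
  ∀ (α β γ : Type) [Fintype α] [Fintype β] [Fintype γ] [DecidableEq α] [DecidableEq β]
    [DecidableEq γ] (Λ ε δ d η : ℝ) (n : ℕ) (A : Finset (α × β)) (B : Finset (β × γ))
    (C : Finset (γ × α)) (x : α → β → γ → ℝ), 0 < Λ → 0 < ε → ε ≤ 1 / 8 → 0 ≤ δ → δ ≤ 1 / 4 →
    0 < η → 0 < n → Dat Λ δ d n A B C x → 
    (∀ a, Tst (fun a b c => ε * x a b c) (η * n) n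
      (fun σ => ∑ b, (if (a, b) ∈ A then 1 - kA σ a b else 0))
      ((1 - ε / 2) * d1 A a + η * n)) ∧
    ∀ b, Tst (fun a b c => ε * x a b c) (η * n) n
      (fun σ => ∑ a, (if (a, b) ∈ A then 1 - kA σ a b else 0))
      ((1 - ε / 2) * d2 A b + η * n)

/-- TDB. USES: StKUB, StLO1, StLO2, StKMN. The first function is `F1 σ z 1 0 a b`, the second `F2 σ z 0 1 c a` (the dummy index exists
because `0 < n`), `z` the indicator of `B`; StLO1 and StLO2 give `Loc` (`|S| ≤ 2 n`). Means: KMN with `y = ε x`: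
`E (1 - kB) ≤ 1 - (1 - 2ε)(1 - δ) ε ≤ 1 - ε/2` for an edge of `B` (`(1 - 2ε)(1 - δ) ≥ 9/16`). -/
def StTDB : Prop :=
  ∀ (α β γ : Type) [Fintype α] [Fintype β] [Fintype γ] [DecidableEq α] [DecidableEq β]
    [DecidableEq γ] (Λ ε δ d η : ℝ) (n : ℕ) (A : Finset (α × β)) (B : Finset (β × γ))
    (C : Finset (γ × α)) (x : α → β → γ → ℝ), 0 < Λ → 0 < ε → ε ≤ 1 / 8 → 0 ≤ δ → δ ≤ 1 / 4 →
    0 < η → 0 < n → Dat Λ δ d n A B C x → 
    (∀ b, Tst (fun a b c => ε * x a b c) (η * n) n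
      (fun σ => ∑ c, (if (b, c) ∈ B then 1 - kB σ b c else 0))
      ((1 - ε / 2) * d1 B b + η * n)) ∧
    ∀ c, Tst (fun a b c => ε * x a b c) (η * n) n
      (fun σ => ∑ b, (if (b, c) ∈ B then 1 - kB σ b c else 0))
      ((1 - ε / 2) * d2 B c + η * n)

/-- TDC. USES: StKUB, StLO3, StLO1, StKMN. The first function is `F3 σ z 0 1 b c`, the second `F1 σ z 0 1 a b` (the dummy index exists
because `0 < n`), `z` the indicator of `C`; StLO3 and StLO1 give `Loc` (`|S| ≤ 2 n`). Means: KMN with `y = ε x`: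
`E (1 - kC) ≤ 1 - (1 - 2ε)(1 - δ) ε ≤ 1 - ε/2` for an edge of `C` (`(1 - 2ε)(1 - δ) ≥ 9/16`). -/
def StTDC : Prop :=
  ∀ (α β γ : Type) [Fintype α] [Fintype β] [Fintype γ] [DecidableEq α] [DecidableEq β]
    [DecidableEq γ] (Λ ε δ d η : ℝ) (n : ℕ) (A : Finset (α × β)) (B : Finset (β × γ))
    (C : Finset (γ × α)) (x : α → β → γ → ℝ), 0 < Λ → 0 < ε → ε ≤ 1 / 8 → 0 ≤ δ → δ ≤ 1 / 4 →
    0 < η → 0 < n → Dat Λ δ d n A B C x → 
    (∀ c, Tst (fun a b c => ε * x a b c) (η * n) n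
      (fun σ => ∑ a, (if (c, a) ∈ C then 1 - kC σ c a else 0))
      ((1 - ε / 2) * d1 C c + η * n)) ∧
    ∀ a, Tst (fun a b c => ε * x a b c) (η * n) n
      (fun σ => ∑ c, (if (c, a) ∈ C then 1 - kC σ c a else 0))
      ((1 - ε / 2) * d2 C a + η * n)

/-- RS1 (a good outcome exists). USES: StSEL, StTSA, StTSB, StTSC, StTDA, StTDB, StTDC. Put `η' = min η (η / Λ)`
(so `Λ η' ≤ η`, `η' n ≤ η n`), `y = ε x`, SEL for `Λ`, `η'`; index type
`J = (Bool × (α × β) ⊕ Bool × (β × γ) ⊕ Bool × (γ × α)) ⊕ (α ⊕ β) ⊕ (β ⊕ γ) ⊕ (γ ⊕ α)`, of size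
`6 n^2 + 6 n ≤ 20 n^2`; `f`, `b` from the twelve tests (`TSA .. TDC` with `η'` in place of `η`). From
`n/Λ * F < n/Λ * K` follows `F < K`; from `-(n/Λ) * F < -(n/Λ) * K` follows `K < F`. `y a b c ≠ 0` gives
`x a b c ≠ 0`. -/
def StRS1 : Prop :=
  ∀ Λ ε δ d η : ℝ, 0 < Λ → 0 < ε → ε ≤ 1 / 8 → 0 ≤ δ → δ ≤ 1 / 4 → 0 < η → ∃ n1 : ℕ, 0 < n1 ∧
    ∀ (α β γ : Type) [Fintype α] [Fintype β] [Fintype γ] [DecidableEq α] [DecidableEq β]
    [DecidableEq γ] (n : ℕ) (A : Finset (α × β)) (B : Finset (β × γ)) (C : Finset (γ × α))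
    (x : α → β → γ → ℝ), n1 ≤ n → Dat Λ δ d n A B C x → ∃ σ, Rd Λ ε δ η n A B C x σ

/-! ## One round: the new data (deterministic) -/

/-- RIM. USES: StKUB. `P1 σ` is the set of the used triples; `(a,b) ∈ (P1 σ).image eA ↔ ∃ c, Us σ a b c`. -/
def StRIM : Prop :=
  ∀ (α β γ : Type) [Fintype α] [Fintype β] [Fintype γ] [DecidableEq α] [DecidableEq β]
    [DecidableEq γ] (σ : α × β → Option γ),
    (∀ a b, kA σ a b = if (a, b) ∈ (P1 σ).image eA then 1 else 0) ∧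
    (∀ b c, kB σ b c = if (b, c) ∈ (P1 σ).image eB then 1 else 0) ∧
    ∀ c a, kC σ c a = if (c, a) ∈ (P1 σ).image eC then 1 else 0

/-- RPK. USES: nothing. `Us σ a b c` gives `σ (a,b) = some c`, so `x a b c ≠ 0` and the three edges are in the
graph; two used triples with a common edge are equal by the clauses of `Us`. -/
def StRPK : Prop :=
  ∀ (α β γ : Type) [Fintype α] [Fintype β] [Fintype γ] [DecidableEq α] [DecidableEq β]
    [DecidableEq γ] (A : Finset (α × β)) (B : Finset (β × γ)) (C : Finset (γ × α))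
    (x : α → β → γ → ℝ) (σ : α × β → Option γ), (∀ a b c, σ (a, b) = some c → x a b c ≠ 0) →
    (∀ a b c, x a b c ≠ 0 → (a, b) ∈ A ∧ (b, c) ∈ B ∧ (c, a) ∈ C) → Pack A B C (P1 σ)

/-- RSM (sums of the new weights). USES: StRIM. Put `N = 1 - 2ε + 2εδ + 23/4 ε^2`, `N ≥ 1 - 2ε ≥ 3/4`.
`(1 - 2 (1 - 2ε)(1 - δ) ε + ε^2 + ε Λ / n) ≤ N - ε^2/4` (as `ε Λ / n ≤ ε^2 / 2`, `ε^2 δ ≥ 0`) and `η ≤ ε^2/4`,
`0 ≤ ∑ x ≤ 1` give `F1 ≤ N` (`F2`, `F3` the same). `∑_c nx a b c = (1 - kA a b) * F1 .. / N` with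
`0 ≤ 1 - kA ≤ 1` and `F1 ≥ 0`: at most `1`. If `(a,b) ∈ A \ image`, then `kA = 0` and the sum is
`F1 / N ≥ ((1 - 2ε)(1 - δ) - η) / N ≥ 1 - (δ + 6 ε^2) / N ≥ 1 - (1 + 4ε)(δ + 6 ε^2)` (`(1 + 4ε) N ≥
(1 + 4ε)(1 - 2ε) ≥ 1`). The same for `B` (`F3`) and `C` (`F2`). `nx ≤ x / N ≤ (Λ / (1 - 2ε)) / n`. If
`nx a b c ≠ 0` then `x a b c ≠ 0` and `kA = kB = kC = 0` there, so the edges are in the new graph. -/
def StRSM : Prop :=
  ∀ (α β γ : Type) [Fintype α] [Fintype β] [Fintype γ] [DecidableEq α] [DecidableEq β]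
    [DecidableEq γ] (Λ ε δ d η : ℝ) (n : ℕ) (A : Finset (α × β)) (B : Finset (β × γ))
    (C : Finset (γ × α)) (x : α → β → γ → ℝ) (σ : α × β → Option γ), 0 < Λ → 0 < ε →
    ε ≤ 1 / 8 → 0 ≤ δ → δ ≤ 1 / 4 → 0 < η → η ≤ ε ^ 2 / 4 → 0 < n → Λ / n ≤ ε / 2 →
    Dat Λ δ d n A B C x → Rd Λ ε δ η n A B C x σ →
    ∀ z : α → β → γ → ℝ, (∀ a b c, z a b c
      = nx σ (1 - 2 * ε + 2 * ε * δ + 23 / 4 * ε ^ 2) x a b c) →
    (∀ a b c, 0 ≤ z a b c) ∧ (∀ a b c, z a b c ≤ Λ / (1 - 2 * ε) / n) ∧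
    (∀ a b c, z a b c ≠ 0 → (a, b) ∈ A \ (P1 σ).image eA ∧ (b, c) ∈ B \ (P1 σ).image eB ∧
      (c, a) ∈ C \ (P1 σ).image eC) ∧
    (∀ a b, (a, b) ∈ A \ (P1 σ).image eA → 1 - (1 + 4 * ε) * (δ + 6 * ε ^ 2) ≤ ∑ c, z a b c) ∧
    (∀ a b, ∑ c, z a b c ≤ 1) ∧
    (∀ b c, (b, c) ∈ B \ (P1 σ).image eB → 1 - (1 + 4 * ε) * (δ + 6 * ε ^ 2) ≤ ∑ a, z a b c) ∧
    (∀ b c, ∑ a, z a b c ≤ 1) ∧
    (∀ c a, (c, a) ∈ C \ (P1 σ).image eC → 1 - (1 + 4 * ε) * (δ + 6 * ε ^ 2) ≤ ∑ b, z a b c) ∧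
    ∀ c a, ∑ b, z a b c ≤ 1

/-- RDG (new degrees). USES: StRIM. `d1 (A \ (P1 σ).image eA) a` is the number of `b` with `(a,b) ∈ A` and
`kA σ a b = 0`, i.e. `∑ b, (if (a,b) ∈ A then 1 - kA σ a b else 0)`, at most `(1 - ε/2) d1 A a + η n ≤
(1 - ε/2) d n + η n` by `Rd.dA1` and `Dat.dA`. The same for the other five kinds. -/
def StRDG : Prop :=
  ∀ (α β γ : Type) [Fintype α] [Fintype β] [Fintype γ] [DecidableEq α] [DecidableEq β]
    [DecidableEq γ] (Λ ε δ d η e : ℝ) (n : ℕ) (A : Finset (α × β)) (B : Finset (β × γ))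
    (C : Finset (γ × α)) (x : α → β → γ → ℝ) (σ : α × β → Option γ), 0 < ε → ε ≤ 1 / 8 →
    η ≤ e → Dat Λ δ d n A B C x → Rd Λ ε δ η n A B C x σ →
    Sm (A \ (P1 σ).image eA) (((1 - ε / 2) * d + e) * n) ∧
    Sm (B \ (P1 σ).image eB) (((1 - ε / 2) * d + e) * n) ∧
    Sm (C \ (P1 σ).image eC) (((1 - ε / 2) * d + e) * n)

/-- RUN (union of packings). USES: nothing. -/
def StRUN : Prop :=
  ∀ (α β γ : Type) [DecidableEq α] [DecidableEq β] [DecidableEq γ] (A : Finset (α × β))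
    (B : Finset (β × γ)) (C : Finset (γ × α)) (P Q : Finset (α × β × γ)), Pack A B C P →
    Pack (A \ P.image eA) (B \ P.image eB) (C \ P.image eC) Q →
    Pack A B C (P ∪ Q) ∧ A \ (P ∪ Q).image eA = (A \ P.image eA) \ Q.image eA ∧
      B \ (P ∪ Q).image eB = (B \ P.image eB) \ Q.image eB ∧
      C \ (P ∪ Q).image eC = (C \ P.image eC) \ Q.image eC

/-- RND (one round). USES: StRS1, StRPK, StRSM, StRDG, StRUN. Use RS1 with `min η (ε^2/4)` in place of `η`,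
`n` so large that also `Λ / n ≤ ε / 2`; the new data `A \ (P1 σ).image eA`, .., `nx σ N x` satisfy `Dat` with the
new parameters; apply `Good` and RUN. -/
def StRND : Prop :=
  ∀ Λ ε δ d η g : ℝ, 0 < Λ → 0 < ε → ε ≤ 1 / 8 → 0 ≤ δ → δ ≤ 1 / 4 → 0 < η →
    Good (Λ / (1 - 2 * ε)) ((1 + 4 * ε) * (δ + 6 * ε ^ 2)) ((1 - ε / 2) * d + η) g →
    Good Λ δ d g

/-- ITE (iteration). USES: StRND. Choose `L > 0` with `exp (-L/2) ≤ g/2`, `t ≥ 1` natural so large that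
`ε := L / t` satisfies `ε ≤ 1/8` and `exp (4 L) (1 + 6 L) ε ≤ 1/4`, `η := g ε / 4`. Sequences `Λ_i = Λ / (1 - 2ε)^i`,
`δ_0 = ε^2`, `δ_{i+1} = (1 + 4ε)(δ_i + 6 ε^2)`, `d_0 = 1`, `d_{i+1} = (1 - ε/2) d_i + η`. By induction
`δ_i ≤ (1 + 4ε)^i (ε^2 + 6 ε^2 i)`; for `i ≤ t` this is at most
`exp (4 ε t) (ε^2 + 6 ε^2 t) = exp (4L) (ε + 6 L) ε ≤ 1/4` (`ε ≤ 1`); `d_i ≤ (1 - ε/2)^i + g/2`
(as `(1 - ε/2) g/2 + η = g/2`), so `d_t ≤ exp (- ε t/2) + g/2 ≤ g`. `Good Λ_t δ_t d_t g` holds with `P = ∅`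
(`Sm A (d_t n)`, `d_t ≤ g`). Apply RND backwards `t` times: `Good Λ (ε^2) 1 g`. -/
def StITE : Prop :=
  ∀ Λ g : ℝ, 0 < Λ → 0 < g → ∃ δ : ℝ, 0 < δ ∧ Good Λ δ 1 g

/-- NIF (final). USES: StITE. `Sm A (1 * n)` holds since `d1 A a ≤ |β| = n`. -/
def StNIF : Prop := StNIB

end Pool.Agent.Helper85.IA
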